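import Pool.Agent.HIK.Stmts

set_option autoImplicit false

/-!
# HIK, row CNT: the number of the bad parameters in a segment in the direction of one
-/

namespace Pool.Agent.HIK.H31

open Polynomial NumberField

theorem dvd_evalEval_sub {R : Type*} [CommRing R] (p : R) (g : R[X][X]) {x x' y y' : R}
    (hx : p ∣ x - x') (hy : p ∣ y - y') : p ∣ evalEval x y g - evalEval x' y' g := by
  have h1 : p ∣ evalEval x y g - evalEval x' y g := hx.trans (sub_dvd_eval_sub x x' _)
  have h2 : p ∣ evalEval x' y g - evalEval x' y' g := by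
    rw [← map_evalRingHom_eval, ← map_evalRingHom_eval]
    exact hy.trans (sub_dvd_eval_sub y y' _)
  have h3 := dvd_add h1 h2
  rwa [sub_add_sub_cancel] at h3

theorem unit_congr {R : Type*} [CommRing R] {p u u' : R} (h : UnitMod p u) (hu : p ∣ u - u') :
    UnitMod p u' := by
  obtain ⟨v, hv⟩ := h
  refine ⟨v, ?_⟩
  have h1 : 1 - v * u' = (1 - v * u) + v * (u - u') := by ring
  rw [h1]
  exact dvd_add hv (hu.mul_left v)

theorem natCast_mod_dvd {R : Type*} [CommRing R] (p n : ℕ) :
    (p : R) ∣ (n : R) - ((n % p : ℕ) : R) := by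
  refine ⟨((n / p : ℕ) : R), ?_⟩
  have h : ((p * (n / p) + n % p : ℕ) : R) = (n : R) := by rw [Nat.div_add_mod]
  rw [← h, Nat.cast_add, Nat.cast_mul, add_sub_cancel_right]

/-- ROW CNT -/
theorem cnt (cls : ClsStmt) (rtb : RtbStmt) (rts : RtsStmt) (sng : SngStmt) : CntStmt := by
  classical
  intro K _ _ g hg
  obtain ⟨A, B, r, hr, hsep⟩ := hg.sep
  obtain ⟨C, κ, hC⟩ := rtb K g hg.monic
  obtain ⟨p0, hp0⟩ := sng K r hr
  set m := Module.finrank ℚ K with hm
  obtain ⟨N, hN⟩ : ∃ N, N = κ + 2 := ⟨_, rfl⟩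
  have heN : N * (N + 1) / 2 = N * (N - 1) / 2 + N := by
    have h1 := Finset.sum_range_id_mul_two (N + 1)
    have h2 := Finset.sum_range_id_mul_two N
    rw [Finset.sum_range_succ, Nat.add_sub_cancel] at h1
    have h3 : (N + 1) * N = N * (N + 1) := mul_comm _ _
    omega
  obtain ⟨e, he⟩ : ∃ e, e = N * (N + 1) / 2 := ⟨_, rfl⟩
  have he2 : N * (N - 1) / 2 + κ ≤ e - 2 := by omega
  have he3 : 3 ≤ e := by
    have h3 : 2 ≤ N := by omega
    have h4 : 1 ≤ N * (N - 1) / 2 := by
      rw [Nat.le_div_iff_mul_le (by norm_num)]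
      calc 1 * 2 = 2 * 1 := rfl
        _ ≤ N * (N - 1) := Nat.mul_le_mul h3 (by omega)
    omega
  refine ⟨e, 2 * ((degBoundK g N + N) * g.natDegree ^ m) + m * r.natDegree,
    max 2 (max ((N + 1).factorial * (C * 3 ^ κ)) p0), by omega, fun R hR a0 ha0 => ?_⟩
  have hR2 : 2 ≤ R := le_trans (le_max_left _ _) hR
  have hR3 : (N + 1).factorial * (C * 3 ^ κ) ≤ R :=
    le_trans (le_trans (le_max_left _ _) (le_max_right _ _)) hR
  have hR4 : p0 ≤ R := le_trans (le_trans (le_max_right _ _) (le_max_right _ _)) hR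
  have hRpos : 0 < R := by omega
  obtain ⟨p, hpp, hp1, hp2⟩ := Nat.exists_prime_lt_and_le_two_mul (R ^ (e - 1))
    (Nat.pos_iff_ne_zero.1 (Nat.pow_pos hRpos))
  have hRe : R ^ e = R * R ^ (e - 1) := by
    rw [← pow_succ']; congr 1; omega
  have hpT : p ≤ R ^ e := by
    rw [hRe]; exact hp2.trans (Nat.mul_le_mul_right _ hR2)
  have hT1 : 1 ≤ R ^ e := Nat.one_le_pow _ _ hRpos
  have hRle : R ≤ R ^ (e - 1) := by
    calc R = R ^ 1 := (pow_one R).symm
      _ ≤ R ^ (e - 1) := Nat.pow_le_pow_right hRpos (by omega)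
  have hRp : R < p := lt_of_le_of_lt hRle hp1
  -- the size condition
  have hbig : (N + 1).factorial * ((R ^ e) ^ (N * (N - 1) / 2) * (C * (3 * R ^ e) ^ κ)) <
      p ^ (N * (N + 1) / 2) := by
    rw [← he]
    calc (N + 1).factorial * ((R ^ e) ^ (N * (N - 1) / 2) * (C * (3 * R ^ e) ^ κ))
        = ((N + 1).factorial * (C * 3 ^ κ)) * (R ^ e) ^ (N * (N - 1) / 2 + κ) := by
          rw [pow_add, mul_pow]; ring
      _ ≤ R ^ e * (R ^ e) ^ (e - 2) := by
          refine Nat.mul_le_mul ?_ (Nat.pow_le_pow_right hT1 he2)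
          refine hR3.trans ?_
          calc R = R ^ 1 := (pow_one R).symm
            _ ≤ R ^ e := Nat.pow_le_pow_right hRpos (by omega)
      _ = (R ^ (e - 1)) ^ e := by
          rw [← pow_succ', ← pow_mul, ← pow_mul]
          congr 1
          have : e - 2 + 1 = e - 1 := by omega
          rw [this, mul_comm]
      _ < p ^ e := Nat.pow_lt_pow_left hp1 (by omega)
  -- the bad parameters
  set bad : Finset ℕ := (Finset.range (R ^ e)).filter fun n =>
    ∃ y : 𝓞 K, evalEval (a0 + n) y g = 0 with hbad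
  have hcard : Nat.card {n : ℕ // n < R ^ e ∧ ∃ y : 𝓞 K, evalEval (a0 + n) y g = 0} =
      bad.card := Nat.subtype_card bad fun n => by
    rw [hbad, Finset.mem_filter, Finset.mem_range]
  rw [hcard]
  let y : ℕ → 𝓞 K := fun n =>
    if h : ∃ y : 𝓞 K, evalEval (a0 + n) y g = 0 then h.choose else 0
  have hy : ∀ n ∈ bad, evalEval (a0 + n) (y n) g = 0 := by
    intro n hn
    have h := (Finset.mem_filter.1 hn).2
    simp only [y, dif_pos h]
    exact h.choose_spec
  have haT : ∀ n ∈ bad, n < R ^ e := fun n hn => Finset.mem_range.1 (Finset.mem_filter.1 hn).1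
  have hyb : ∀ n ∈ bad, house (y n : K) ≤ ((C * (3 * R ^ e) ^ κ : ℕ) : ℝ) := fun n hn => by
    have h1 : house ((a0 + n : 𝓞 K) : K) ≤ ((3 * R ^ e : ℕ) : ℝ) := by
      have h2 : ((a0 + n : 𝓞 K) : K) = (a0 : K) + ((n : ℤ) : K) := by
        push_cast
        rfl
      rw [h2]
      refine (house_add_le _ _).trans ?_
      rw [house_intCast]
      have h3 : (n : ℝ) ≤ (R : ℝ) ^ e := by exact_mod_cast (haT n hn).le
      push_cast
      have h4 : |(n : ℝ)| = n := abs_of_nonneg (by positivity)
      rw [h4]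
      linarith
    have h5 := hC (3 * R ^ e) (by omega) _ _ h1 (hy n hn)
    refine h5.trans (le_of_eq ?_)
    push_cast
    ring
  -- split
  set Sr : Finset ℕ := bad.filter fun n : ℕ => ¬ UnitMod (p : 𝓞 K) (r.eval (a0 + n)) with hSrdef
  set Ss : Finset ℕ := bad.filter fun n : ℕ => UnitMod (p : 𝓞 K) (r.eval (a0 + n)) with hSsdef
  have hsplit : bad.card = Ss.card + Sr.card :=
    (Finset.card_filter_add_card_filter_not (s := bad)
      (fun n : ℕ => UnitMod (p : 𝓞 K) (r.eval (a0 + n)))).symm
  have hmodK : ∀ n : ℕ, (p : 𝓞 K) ∣ (a0 + n) - (a0 + ((n % p : ℕ) : 𝓞 K)) := fun n => by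
    have h1 : (a0 + n) - (a0 + ((n % p : ℕ) : 𝓞 K)) = (n : 𝓞 K) - ((n % p : ℕ) : 𝓞 K) := by ring
    rw [h1]
    exact natCast_mod_dvd p n
  -- singular part
  have hSr : Sr.card ≤ (m * r.natDegree) * R := by
    have h1 := hp0 p hpp (hR4.trans hRp.le) a0 (Sr.image fun n => n % p)
      (fun n hn => by
        obtain ⟨n', _, rfl⟩ := Finset.mem_image.1 hn
        exact Nat.mod_lt _ hpp.pos)
      (fun n hn => by
        obtain ⟨n', hn', rfl⟩ := Finset.mem_image.1 hn
        intro h
        refine (Finset.mem_filter.1 hn').2 (unit_congr h ?_)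
        have h2 := (hmodK n').trans (sub_dvd_eval_sub _ _ r)
        rw [← neg_sub, dvd_neg]
        exact h2)
    refine (Finset.card_le_mul_card_image (f := fun n => n % p) Sr R fun s _ => ?_).trans ?_
    · refine (Finset.card_le_card_of_injOn (t := Finset.range R) (fun a => a / p) ?_ ?_).trans
        (le_of_eq (Finset.card_range R))
      · intro a ha
        have ha' := (Finset.mem_filter.1 (Finset.mem_filter.1 (Finset.mem_coe.1 ha)).1).1
        rw [Finset.coe_range, Set.mem_Iio, Nat.div_lt_iff_lt_mul hpp.pos]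
        refine (haT a ha').trans_le ?_
        rw [hRe]; exact Nat.mul_le_mul_left _ hp1.le
      · intro a ha b hb hab
        have ha' := (Finset.mem_filter.1 (Finset.mem_coe.1 ha)).2
        have hb' := (Finset.mem_filter.1 (Finset.mem_coe.1 hb)).2
        change a / p = b / p at hab
        rw [← Nat.div_add_mod a p, ← Nat.div_add_mod b p, hab, ha', hb']
    · rw [mul_comm]
      exact Nat.mul_le_mul_right _ h1
  -- smooth part
  have hsm : ∀ n ∈ Ss, UnitMod (p : 𝓞 K) (evalEval (a0 + n) (y n) (derivative g)) := by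
    intro n hn
    obtain ⟨v, hv⟩ := (Finset.mem_filter.1 hn).2
    have h2 := congrArg (evalEval (a0 + n) (y n)) hsep
    rw [evalEval_add, evalEval_mul, evalEval_mul, evalEval_C, hy n (Finset.mem_filter.1 hn).1,
      mul_zero, zero_add] at h2
    refine ⟨v * evalEval (a0 + n) (y n) B, ?_⟩
    rw [mul_assoc, h2]
    exact hv
  have hSs : Ss.card ≤ (degBoundK g N + N) * (g.natDegree ^ m * p) := by
    let Q := 𝓞 K ⧸ (Ideal.span {(p : 𝓞 K)})
    have hQ : ∀ u v : 𝓞 K, (Ideal.Quotient.mk (Ideal.span {(p : 𝓞 K)}) u = Ideal.Quotient.mk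
        (Ideal.span {(p : 𝓞 K)}) v) ↔ (p : 𝓞 K) ∣ u - v := fun u v => by
      rw [Ideal.Quotient.mk_eq_mk_iff_sub_mem, Ideal.mem_span_singleton]
    let ψ : ℕ → ℕ × Q := fun n => (n % p, Ideal.Quotient.mk (Ideal.span {(p : 𝓞 K)}) (y n))
    have h1 : Ss.card ≤ (degBoundK g N + N) * (Ss.image ψ).card := by
      refine Finset.card_le_mul_card_image Ss _ fun uv huv => ?_
      obtain ⟨n1, hn1, rfl⟩ := Finset.mem_image.1 huv
      have hn1' := Finset.mem_filter.1 hn1
      have hc := hmodK n1
      refine cls K g hg.no_root p hpp a0 (y n1) (n1 % p) N (R ^ e) (C * (3 * R ^ e) ^ κ)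
        (by omega) ((Nat.mod_lt _ hpp.pos).le.trans hpT) ?_ ?_ hbig _ y ?_ ?_ ?_ ?_ ?_
      · have h3 := dvd_evalEval_sub (p : 𝓞 K) g hc (y := y n1) (y' := y n1) (by simp)
        rw [hy n1 hn1'.1, zero_sub, dvd_neg] at h3
        exact h3
      · exact unit_congr (hsm n1 hn1) (dvd_evalEval_sub (p : 𝓞 K) (derivative g) hc (by simp))
      · intro n hn
        exact (haT n (Finset.mem_filter.1 (Finset.mem_filter.1 hn).1).1).le
      · intro n hn
        have h2 := (Finset.mem_filter.1 hn).2
        simp only [ψ, Prod.mk.injEq] at h2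
        rw [← h2.1]
        push_cast
        exact Int.dvd_self_sub_emod
      · intro n hn
        have h2 := (Finset.mem_filter.1 hn).2
        simp only [ψ, Prod.mk.injEq] at h2
        exact (hQ _ _).1 h2.2
      · intro n hn
        exact hy n (Finset.mem_filter.1 (Finset.mem_filter.1 hn).1).1
      · intro n hn
        exact hyb n (Finset.mem_filter.1 (Finset.mem_filter.1 hn).1).1
    have h2 : (Ss.image ψ).card ≤ g.natDegree ^ m * p := by
      have h3 : (Ss.image ψ).card ≤ g.natDegree ^ m * ((Ss.image ψ).image Prod.fst).card := by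
        refine Finset.card_le_mul_card_image _ _ fun s hs => ?_
        obtain ⟨uv0, huv0, hs0⟩ := Finset.mem_image.1 hs
        obtain ⟨n0, hn0, rfl⟩ := Finset.mem_image.1 huv0
        have hsp : s < p := by
          rw [← hs0]
          exact Nat.mod_lt _ hpp.pos
        set h : (𝓞 K)[X] := g.map (evalRingHom (a0 + (s : 𝓞 K))) with hh
        have hhm : h.Monic := hg.monic.map _
        have hdeg : h.natDegree = g.natDegree := hg.monic.natDegree_map _
        set F := (Ss.image ψ).filter fun uv => uv.1 = s with hF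
        let rep : ℕ × Q → 𝓞 K := fun uv => Quotient.out uv.2
        have hrep : ∀ uv, Ideal.Quotient.mk (Ideal.span {(p : 𝓞 K)}) (rep uv) = uv.2 :=
          fun uv => Quotient.out_eq uv.2
        have hFrep : ∀ uv ∈ F, ∃ n ∈ Ss, n % p = s ∧ (p : 𝓞 K) ∣ y n - rep uv := by
          intro uv huv
          obtain ⟨h4, h5⟩ := Finset.mem_filter.1 huv
          obtain ⟨n, hn, rfl⟩ := Finset.mem_image.1 h4
          exact ⟨n, hn, h5, (hQ _ _).1 (hrep (ψ n)).symm⟩
        have hinj : Set.InjOn rep F := by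
          intro uv huv uv' huv' h6
          have h7 : uv.2 = uv'.2 := by
            rw [← hrep uv, ← hrep uv', h6]
          exact Prod.ext ((Finset.mem_filter.1 huv).2.trans (Finset.mem_filter.1 huv').2.symm) h7
        have h8 := rts K p hpp h hhm (F.image rep)
          (fun z hz => by
            obtain ⟨uv, huv, rfl⟩ := Finset.mem_image.1 hz
            obtain ⟨n, hn, h5, h6⟩ := hFrep uv huv
            rw [hh, map_evalRingHom_eval]
            have h7 := dvd_evalEval_sub (p : 𝓞 K) g (hmodK n) h6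
            rw [hy n (Finset.mem_filter.1 hn).1, zero_sub, dvd_neg, h5] at h7
            exact h7)
          (fun z hz => by
            obtain ⟨uv, huv, rfl⟩ := Finset.mem_image.1 hz
            obtain ⟨n, hn, h5, h6⟩ := hFrep uv huv
            rw [hh, derivative_map, map_evalRingHom_eval]
            have h7 := dvd_evalEval_sub (p : 𝓞 K) (derivative g) (hmodK n) h6
            rw [h5] at h7
            exact unit_congr (hsm n hn) h7)
          (fun z hz z' hz' hzz => by
            obtain ⟨uv, huv, rfl⟩ := Finset.mem_image.1 hz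
            obtain ⟨uv', huv', rfl⟩ := Finset.mem_image.1 hz'
            have h7 := (hQ _ _).2 hzz
            rw [hrep, hrep] at h7
            have h9 : uv = uv' := Prod.ext
              ((Finset.mem_filter.1 huv).2.trans (Finset.mem_filter.1 huv').2.symm) h7
            rw [h9])
        rw [Finset.card_image_of_injOn hinj, hdeg] at h8
        exact h8
      refine h3.trans (Nat.mul_le_mul_left _ ?_)
      refine (Finset.card_le_card (t := Finset.range p) ?_).trans (le_of_eq (Finset.card_range p))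
      intro s hs
      obtain ⟨uv0, huv0, hs0⟩ := Finset.mem_image.1 hs
      obtain ⟨n0, _, rfl⟩ := Finset.mem_image.1 huv0
      rw [Finset.mem_range, ← hs0]
      exact Nat.mod_lt _ hpp.pos
    exact h1.trans (Nat.mul_le_mul_left _ h2)
  rw [hsplit]
  calc Ss.card + Sr.card ≤ (degBoundK g N + N) * (g.natDegree ^ m * p) + (m * r.natDegree) * R :=
        add_le_add hSs hSr
    _ ≤ (degBoundK g N + N) * (g.natDegree ^ m * (2 * R ^ (e - 1))) +
        (m * r.natDegree) * R ^ (e - 1) := by gcongr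
    _ = (2 * ((degBoundK g N + N) * g.natDegree ^ m) + m * r.natDegree) * R ^ (e - 1) := by ring

end Pool.Agent.HIK.H31
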